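import Pool.Agent.W482.LR.Fin
import Pool.Agent.W397.LR.Upb
set_option autoImplicit false

/-!
# Candidate lists (partial pricing) do not make the simplex method polynomial

A candidate list rule offers, at every vertex, the first `t` improving rows in each of `m` fixed
orders of the rows; the choice among the offered rows may depend on everything. For
`n ≥ (2 t - 1) 8 ^ (m (m - 1)) K ^ m` there are linear programs with `n` variables and `2 n` rows
(combinatorial cubes with integer data) on which every such run to the optimum has at least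
`2 ^ K - 1` steps, also when arbitrary steps of Dantzig's rule are allowed in between. For one order
the exponent `K = n / (2 t - 1)` is sharp up to a logarithm: on every cube with a unique local
maximum on each face some run of the list rule reaches the maximum in less than
`(t + 1) ^ ⌈n / t⌉` steps.
-/

namespace Pool.Agent.Results.MP_4d246d_lc.CandidateLists

open Finset Pool.Agent.W482.LR

open Pool.Agent.H454R3 in
theorem result :
    (∀ (m t K n : ℕ) (π : Fin m → Fin (2 * n) → ℕ), 1 ≤ m → 1 ≤ t → 1 ≤ K →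
      (2 * t - 1) * 8 ^ (m * (m - 1)) * K ^ m ≤ n → (∀ q, Function.Injective (π q)) →
      ∃ (A : Fin (2 * n) → Fin n → ℤ) (b : Fin (2 * n) → ℤ) (c : Fin n → ℤ) (x₀ : Fin n → ℝ),
        (∀ r, |b r| ≤ (4 * n : ℤ) ^ (2 * n ^ 2 + 1) ∧
          ∀ l, |A r l| ≤ (4 * n : ℤ) ^ (2 * n ^ 2 + 1) ∧ (c l = 0 ∨ c l = 1)) ∧
        x₀ ∈ (poly A b).extremePoints ℝ ∧
        (∀ x ∈ poly A b, ∀ l, 1 ≤ x l ∧ x l ≤ 2) ∧
        (∀ x ∈ (poly A b).extremePoints ℝ, {r | row A x r = b r}.ncard = n ∧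
          ∀ r, row A x r = b r → ∃! y, Pivot A b x r y) ∧
        ∀ (L : ℕ) (x : ℕ → Fin n → ℝ), x 0 = x₀ →
          (∀ k < L, ListStep A b c π t (x k) (x (k + 1)) ∨ DantzigStep A b c (x k) (x (k + 1))) →
          (∀ y ∈ poly A b, val c y ≤ val c (x L)) → 2 ^ K - 1 ≤ L) ∧
    (∀ (n t : ℕ) (π : Fin n → ℕ) (f : (Fin n → Bool) → ℕ), 1 ≤ t → Function.Injective π →
      (∀ (U : Finset (Fin n)) (x : Fin n → Bool), ∃! y : Fin n → Bool,
        (∀ i, i ∉ U → y i = x i) ∧ ∀ i ∈ U, f (flip y i) < f y) →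
      ∀ x : Fin n → Bool, ∃ (L : ℕ) (v : ℕ → Fin n → Bool), v 0 = x ∧
        (∀ k < L, ∃ i ∈ improving f (v k), v (k + 1) = flip (v k) i ∧
          ((improving f (v k)).filter fun j => π j < π i).card < t) ∧
        (∀ y, f y ≤ f (v L)) ∧ L + 1 ≤ (t + 1) ^ ((n + t - 1) / t)) := by
  refine ⟨?_, Pool.Agent.W397.LR.upb⟩
  intro m t K n π hm ht hK hn hπ
  obtain ⟨cl, e, bl, hd⟩ := exists_data m t K n hm ht hK hn π hπ
  set q : Fin m := ⟨0, hm⟩ with hq
  set D := 4 * t with hD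
  set κ : Fin (2 * n) → ℕ := fun r => (D ^ K) ^ rk (π q) r with hκ
  have hs : Sett bl D κ (2 * t - 1) := ⟨hd.le, by omega, fun r => by positivity⟩
  have h8 : 1 ≤ 8 ^ (m * (m - 1)) := Nat.one_le_pow _ _ (by norm_num)
  have hKm : 1 ≤ K ^ m := Nat.one_le_pow _ _ hK
  have htn : t ≤ n := by
    have h1 : (2 * t - 1) * 1 * 1 ≤ (2 * t - 1) * 8 ^ (m * (m - 1)) * K ^ m :=
      Nat.mul_le_mul (Nat.mul_le_mul_left _ h8) hKm
    omega
  have hKn : K ≤ n := by
    have h1 : 1 * 1 * K ≤ (2 * t - 1) * 8 ^ (m * (m - 1)) * K ^ m :=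
      Nat.mul_le_mul (Nat.mul_le_mul (by omega) h8) (Nat.le_self_pow (by omega) K)
    omega
  have hM : ∀ r, κ r ≤ (D ^ K) ^ (2 * n - 1) := fun r =>
    Nat.pow_le_pow_right (Nat.one_le_pow _ _ (by omega)) (rk_le _ r)
  have hbig : ((((D ^ K) ^ (2 * n - 1) : ℕ) : ℤ) * (3 * (D : ℤ))) ≤
      (4 * n : ℤ) ^ (2 * n ^ 2 + 1) := by
    have h1 : (D ^ K) ^ (2 * n - 1) * (3 * D) ≤ (4 * n) ^ (2 * n ^ 2 + 1) := by
      calc (D ^ K) ^ (2 * n - 1) * (3 * D)
          ≤ ((4 * n) ^ n) ^ (2 * n - 1) * (4 * n) ^ 2 := by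
            refine Nat.mul_le_mul ?_ ?_
            · refine Nat.pow_le_pow_left ?_ _
              calc D ^ K ≤ (4 * n) ^ K := Nat.pow_le_pow_left (by omega) _
                _ ≤ (4 * n) ^ n := Nat.pow_le_pow_right (by omega) hKn
            · nlinarith
        _ = (4 * n) ^ (n * (2 * n - 1) + 2) := by rw [← pow_mul, ← pow_add]
        _ ≤ (4 * n) ^ (2 * n ^ 2 + 1) := by
            refine Nat.pow_le_pow_right (by omega) ?_
            obtain ⟨k, rfl⟩ : ∃ k, n = k + 1 := ⟨n - 1, by omega⟩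
            have : 2 * (k + 1) - 1 = 2 * k + 1 := by omega
            rw [this]
            nlinarith
    exact_mod_cast h1
  refine ⟨mat bl D e κ, rhs bl D e κ, obj bl K, vtx bl D fun _ => false, ?_,
    hs.mem Pool.Agent.W305.LR.lpe _, (Pool.Agent.W305.LR.lpe bl D e κ _ hs.c hs.d hs.k).1,
    fun x hx => simple_cube hs x hx, ?_⟩
  · intro r
    obtain ⟨h1, h2⟩ := entries hs hM r
    refine ⟨h1.trans hbig, fun l => ⟨(h2 l).trans hbig, ?_⟩⟩
    unfold obj
    split
    · split_ifs <;> simp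
    · simp
  · intro L x hx0 hx hend
    exact run_bound hd ht hK q hs L x hx0 hx hend

end Pool.Agent.Results.MP_4d246d_lc.CandidateLists
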