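import Pool.Agent.W292.NR.Main
import Pool.Agent.W762.NR.Slack
import Pool.Agent.W976.NR.Uniq
import Pool.Agent.W143.NR.Edger
import Pool.Agent.W554.NR.Edged
import Pool.Agent.W135.NR.Cnt
import Pool.Agent.W542.NR.Reg
import Pool.Agent.W806.NR.Ram
import Pool.Agent.W540.NR.Step
import Pool.Agent.W918.NR.Eps
import Pool.Agent.W935.NR.Rank
import Pool.Agent.W978.NR.Trans
set_option autoImplicit false

namespace Pool.Agent.Results.MP_4d246d_lc.MixedRules

open Finset Pool.Agent.W292.NR

/-- **Finitely many pivot rules which see the names and the reduced costs of the improving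
constraints are exponential on real linear programs, in whatever way they are combined.**

Let `r 1, …, r m` be arbitrary rules: each of them is a map which chooses, from every nonempty
finite set of pairs (name, reduced cost), the name in one of the pairs. Then for every `B ≥ 1`
there is a linear program `max c x, A x ≤ b, x ≥ 0` with `n = 2 (5 B) ^ m` variables and `n` rows,
with integers `|A i j| ≤ 2`, `1 ≤ b i ≤ 3 ^ n`, `|c j| = 1`, and different natural numbers as names
of its `2 n` constraints, such that every simplex path from the vertex `0` all of whose pivots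
are made by rules among `r 1, …, r m`, in any order, needs at least `2 ^ B - 1` pivots: all paths
with fewer pivots end in a nondegenerate vertex in which every one of the rules makes a further
pivot, which increases the objective. In particular no way of switching between the rules
(deterministic, random, depending on the whole history or on the linear program) is faster. -/
theorem result (m B : ℕ) (hm : 1 ≤ m) (hB : 1 ≤ B) (r : Fin m → Finset (ℕ × ℚ) → ℕ)
    (hr : ∀ q S, S.Nonempty → ∃ c, (r q S, c) ∈ S) :
    ∃ (P : LP (Fin (2 * (5 * B) ^ m)) (Fin (2 * (5 * B) ^ m)))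
      (name : Fin (2 * (5 * B) ^ m) ⊕ Fin (2 * (5 * B) ^ m) → ℕ),
      Function.Injective name ∧ (∀ i j, |P.A i j| ≤ 2) ∧
      (∀ i, 1 ≤ P.b i ∧ P.b i ≤ 3 ^ (2 * (5 * B) ^ m)) ∧ (∀ j, |P.c j| = 1) ∧
      ∀ (l : ℕ) (x : ℕ → Fin (2 * (5 * B) ^ m) → ℚ), l < 2 ^ B - 1 → x 0 = 0 →
        (∀ t < l, ∃ q, P.Pivot name (r q) (x t) (x (t + 1))) →
        P.Vertex (x l) ∧ ∀ q, ∃ y, P.Pivot name (r q) (x l) y ∧ P.value (x l) < P.value y := by
  obtain ⟨P, name, h1, h2, h3, h4, h5⟩ := main W762.NR.slack W976.NR.uniq W143.NR.edger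
    W554.NR.edged W540.NR.step W918.NR.epsT W918.NR.posT W935.NR.rank W135.NR.proof_cnt
    W542.NR.reg W806.NR.ram m B hm hB r hr
  have hcard : Fintype.card (Fin ((5 * B) ^ m) × Bool) = 2 * (5 * B) ^ m := by
    simp [mul_comm]
  have e : Fin ((5 * B) ^ m) × Bool ≃ Fin (2 * (5 * B) ^ m) := Fintype.equivFinOfCardEq hcard
  have hT := W978.NR.X _ _ m (2 ^ B - 1) e r P name h5
  refine ⟨_, _, ?_, ?_, ?_, ?_, hT⟩
  · intro s t hst
    have := h1 hst
    exact (Equiv.sumCongr e.symm e.symm).injective this
  · intro i j
    exact h2 _ _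
  · intro i
    refine ⟨(h3 _).1, (h3 _).2.trans ?_⟩
    apply pow_le_pow_right₀ (by norm_num)
    omega
  · intro j
    exact h4 _

end Pool.Agent.Results.MP_4d246d_lc.MixedRules
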