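import Pool.Agent.W960.Fin
import Pool.Agent.W368.SpxGram
import Pool.Agent.W368.SpxPolyFns
import Pool.Agent.W436.SpxSmall
import Pool.Agent.W29.SpxPolyKs
import Pool.Agent.W160.SpxClr
import Pool.Agent.W261.PIter
import Pool.Agent.W960.D.Run
import Pool.Agent.W960.D.Size
import Pool.Agent.W960.D.PolyD

set_option autoImplicit false

/-!
# A version of the simplex method which runs in quasi-polynomial time, and in polynomial time on
# the linear programs whose number of rows is quasi-logarithmic in the input length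
-/

namespace Pool.Agent.Results.MP_4d246d_lc.SimplexVersion

open Pool.Agent.NPC Pool.Agent.W960

/-- The polyhedron `{x : A x ≤ b, x ≥ 0}`. -/
def feasible {m n : ℕ} (A : Matrix (Fin m) (Fin n) ℚ) (b : Fin m → ℚ) : Set (Fin n → ℝ) :=
  {x | (∀ i, ∑ j, (A i j : ℝ) * x j ≤ (b i : ℝ)) ∧ ∀ j, 0 ≤ x j}

/-- A rational point as a real point. -/
def toReal {n : ℕ} (v : Fin n → ℚ) : Fin n → ℝ := fun j => (v j : ℝ)

/-- A rational linear program `maximise c x` subject to `A x ≤ b`, `x ≥ 0`, together with a vertex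
`v₀` of the feasible polyhedron. -/
structure LP where
  /-- the number of rows -/
  m : ℕ
  /-- the number of variables -/
  n : ℕ
  /-- the matrix -/
  A : Matrix (Fin m) (Fin n) ℚ
  /-- the right-hand side -/
  b : Fin m → ℚ
  /-- the objective function -/
  c : Fin n → ℚ
  /-- the starting point -/
  v₀ : Fin n → ℚ
  /-- the starting point is a vertex -/
  vertex : toReal v₀ ∈ (feasible A b).extremePoints ℝ

/-- The value of the objective function. -/
def LP.value (I : LP) (x : Fin I.n → ℝ) : ℝ := ∑ j, (I.c j : ℝ) * x j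

/-- The input word: the encoding of the lists of the entries of `A` (row by row), `b`, `c`, `v₀`,
where rational numbers are given by numerator and denominator in binary. -/
def LP.encode (I : LP) : List Bool :=
  bits (((List.ofFn fun i => List.ofFn (I.A i)), List.ofFn I.b), (List.ofFn I.c, List.ofFn I.v₀))

/-- `l` is a run of the simplex method on `I`: it starts at `v₀`, consists of vertices,
consecutive vertices are joined by an edge along which the objective function increases, and it
stops at a vertex which is optimal or from which the objective function increases along an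
unbounded edge. -/
def IsRun (I : LP) (l : List (Fin I.n → ℚ)) : Prop :=
  l.head? = some I.v₀ ∧
  (∀ v ∈ l, toReal v ∈ (feasible I.A I.b).extremePoints ℝ) ∧
  l.IsChain (fun v w => I.value (toReal v) < I.value (toReal w) ∧
    IsExtreme ℝ (feasible I.A I.b) (segment ℝ (toReal v) (toReal w))) ∧
  ∃ v, l.getLast? = some v ∧
    ((∀ x ∈ feasible I.A I.b, I.value x ≤ I.value (toReal v)) ∨
      ∃ d : Fin I.n → ℝ, 0 < I.value d ∧
        IsExtreme ℝ (feasible I.A I.b) {x | ∃ t : ℝ, 0 ≤ t ∧ x = toReal v + t • d})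

/-! ## The integral instance of a linear program -/

/-- the data of a linear program -/
def dat (I : LP) : QData :=
  (((List.ofFn fun i => List.ofFn (I.A i)), List.ofFn I.b), (List.ofFn I.c, List.ofFn I.v₀))

theorem hyp : Hyp where
  hP := fun k S hS h y hy j hj => Pool.Agent.W368.projL_spec k S hS h y hy j hj
  hSel := fun k R hR => Pool.Agent.W368.sel_spec k R hR
  hSm := fun R k i hR hi x hx0 hx hxi => Pool.Agent.W436.small_sol R k i hR hi x hx0 hx hxi

theorem polyKs : Pool.Agent.W368.PolyKs := fun _ _ _ _ _ hR hk hi => W29Ks.poly_ks hR hk hi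

variable (I : LP)

/-- the `i`-th row with the right-hand side -/
def qrow (i : Fin I.m) : List ℚ := List.ofFn (I.A i) ++ [-(I.b i)]

theorem rowsH_dat : rowsH (dat I) = (List.ofFn fun i : Fin I.m => W960.clr (qrow I i)) ++
    (List.range I.n).map fun j => smulL (-1) (eL (I.n + 1) j) := by
  have h1 : List.zipWith (fun r β => W960.clr (r ++ [-β])) (List.ofFn fun i => List.ofFn (I.A i))
      (List.ofFn I.b) = List.ofFn fun i : Fin I.m => W960.clr (qrow I i) := by
    refine List.ext_getElem (by simp) fun i h1 h2 => ?_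
    simp [qrow]
  have h2 : (List.ofFn I.c).length = I.n := by simp
  unfold rowsH dat
  simp only [h1, h2]

theorem length_rowsH : (rowsH (dat I)).length = I.m + I.n := by
  rw [rowsH_dat]
  simp

theorem row_left (i : Fin I.m) : row (rowsH (dat I)) i = W960.clr (qrow I i) := by
  unfold row
  rw [rowsH_dat, List.getD_eq_getElem?_getD, List.getElem?_append_left (by simp)]
  simp

theorem row_right (j : Fin I.n) : row (rowsH (dat I)) (I.m + j) = smulL (-1) (eL (I.n + 1) j) := by
  unfold row
  rw [rowsH_dat, List.getD_eq_getElem?_getD, List.getElem?_append_right (by simp)]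
  simp

theorem cases_lt {i : ℕ} (hi : i < (rowsH (dat I)).length) :
    (∃ k : Fin I.m, i = k) ∨ ∃ j : Fin I.n, i = I.m + j := by
  rw [length_rowsH] at hi
  rcases Nat.lt_or_ge i I.m with h | h
  · exact Or.inl ⟨⟨i, h⟩, rfl⟩
  · exact Or.inr ⟨⟨i - I.m, by omega⟩, by simp; omega⟩

theorem clr_real (l : List ℚ) (j : ℕ) : (((W960.clr l).getD j 0 : ℤ) : ℝ) =
    (dens l : ℝ) * ((l.getD j 0 : ℚ) : ℝ) := by
  have := (Pool.Agent.W160.Spx.clr_spec l).2 j
  exact_mod_cast congrArg (fun q : ℚ => (q : ℝ)) this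

theorem getD_ofFn_append {n : ℕ} (u : Fin n → ℚ) (a : ℚ) (j : Fin n) :
    (List.ofFn u ++ [a]).getD j 0 = u j := by
  rw [List.getD_eq_getElem?_getD, List.getElem?_append_left (by simp)]
  simp

theorem getD_ofFn_append_last {n : ℕ} (u : Fin n → ℚ) (a : ℚ) :
    (List.ofFn u ++ [a]).getD n 0 = a := by
  rw [List.getD_eq_getElem?_getD, List.getElem?_append_right (by simp)]
  simp

theorem wf : WF (rowsH (dat I)) (objG (dat I)) I.n where
  g_len := by
    unfold objG dat
    rw [(Pool.Agent.W160.Spx.clr_spec _).1]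
    simp
  H_len := by
    intro i hi
    rcases cases_lt I hi with ⟨k, rfl⟩ | ⟨j, rfl⟩
    · rw [row_left, (Pool.Agent.W160.Spx.clr_spec _).1]
      simp [qrow]
    · rw [row_right]
      simp
  g_last := by
    have h1 := (Pool.Agent.W160.Spx.clr_spec (List.ofFn I.c ++ [0])).2 I.n
    rw [getD_ofFn_append_last, mul_zero] at h1
    exact_mod_cast h1

theorem dens_posR (l : List ℚ) : (0 : ℝ) < (dens l : ℝ) := by
  exact_mod_cast Pool.Agent.W160.Spx.dens_pos l

theorem aR_left (i : Fin I.m) : aR (rowsH (dat I)) I.n i =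
    (dens (qrow I i) : ℝ) • fun j => (I.A i j : ℝ) := by
  ext j
  simp only [aR, Pi.smul_apply, smul_eq_mul]
  rw [row_left, clr_real, qrow, getD_ofFn_append]

theorem bR_left (i : Fin I.m) : bR (rowsH (dat I)) I.n i =
    (dens (qrow I i) : ℝ) * (I.b i : ℝ) := by
  simp only [bR]
  rw [row_left, clr_real, qrow, getD_ofFn_append_last]
  push_cast
  ring

theorem aR_right (j : Fin I.n) (x : Fin I.n → ℝ) :
    aR (rowsH (dat I)) I.n (I.m + j) ⬝ᵥ x = -x j := by
  unfold dotProduct aR
  rw [row_right, Finset.sum_eq_single j]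
  · rw [getD_smulL, getD_eL, if_pos ⟨by omega, rfl⟩]
    simp
  · intro i _ hij
    rw [getD_smulL, getD_eL, if_neg]
    · simp
    · rintro ⟨-, h2⟩
      exact hij (Fin.ext h2)
  · simp

theorem bR_right (j : Fin I.n) : bR (rowsH (dat I)) I.n (I.m + j) = 0 := by
  simp only [bR]
  rw [row_right, getD_smulL, getD_eL, if_neg]
  · simp
  · rintro ⟨-, h2⟩
    have := j.2
    omega

theorem PP_eq : PP (aR (rowsH (dat I)) I.n) (bR (rowsH (dat I)) I.n) (rowsH (dat I)).length =
    feasible I.A I.b := by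
  ext x
  rw [mem_PP_iff]
  have key : ∀ i : Fin I.m, (aR (rowsH (dat I)) I.n i ⬝ᵥ x ≤ bR (rowsH (dat I)) I.n i ↔
      ∑ j, (I.A i j : ℝ) * x j ≤ (I.b i : ℝ)) := by
    intro i
    rw [aR_left, bR_left, smul_dotProduct, smul_eq_mul, mul_le_mul_iff_right₀ (dens_posR _)]
    rfl
  constructor
  · intro h
    refine ⟨fun i => (key i).1 (h i (by rw [length_rowsH]; omega)), fun j => ?_⟩
    have := h (I.m + j) (by rw [length_rowsH]; omega)
    rw [aR_right, bR_right] at this
    linarith
  · rintro ⟨h1, h2⟩ i hi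
    rcases cases_lt I hi with ⟨k, rfl⟩ | ⟨j, rfl⟩
    · exact (key k).2 (h1 k)
    · rw [aR_right, bR_right]
      linarith [h2 j]

theorem cR_eq (x : Fin I.n → ℝ) : cR (objG (dat I)) I.n ⬝ᵥ x =
    (dens (List.ofFn I.c ++ [0]) : ℝ) * I.value x := by
  unfold dotProduct LP.value
  rw [Finset.mul_sum]
  refine Finset.sum_congr rfl fun j _ => ?_
  have h1 : cR (objG (dat I)) I.n j = (dens (List.ofFn I.c ++ [0]) : ℝ) * (I.c j : ℝ) := by
    simp only [cR]
    have h2 := clr_real (List.ofFn I.c ++ [0]) j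
    rw [getD_ofFn_append] at h2
    exact h2
  rw [h1]
  ring

theorem cR_lt (x y : Fin I.n → ℝ) : cR (objG (dat I)) I.n ⬝ᵥ x < cR (objG (dat I)) I.n ⬝ᵥ y ↔
    I.value x < I.value y := by
  rw [cR_eq, cR_eq, mul_lt_mul_iff_right₀ (dens_posR _)]

theorem cR_le (x y : Fin I.n → ℝ) : cR (objG (dat I)) I.n ⬝ᵥ x ≤ cR (objG (dat I)) I.n ⬝ᵥ y ↔
    I.value x ≤ I.value y := by
  rw [cR_eq, cR_eq, mul_le_mul_iff_right₀ (dens_posR _)]

theorem cR_pos (x : Fin I.n → ℝ) : 0 < cR (objG (dat I)) I.n ⬝ᵥ x ↔ 0 < I.value x := by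
  rw [cR_eq, mul_pos_iff_of_pos_left (dens_posR _)]

/-! ## The start -/

theorem start_spec : ok I.n (start (dat I)) ∧ pos I.n (start (dat I)) = toReal I.v₀ := by
  set p := W960.clr (List.ofFn I.v₀ ++ [1]) with hp
  have hlen : p.length = I.n + 1 := by
    rw [hp, (Pool.Agent.W160.Spx.clr_spec _).1]
    simp
  have hlast : ((p.getD I.n 0 : ℤ) : ℝ) = (dens (List.ofFn I.v₀ ++ [1]) : ℝ) := by
    rw [hp, clr_real, getD_ofFn_append_last]
    simp
  have hok : ok I.n p := by
    refine ⟨hlen, ?_⟩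
    have : (0 : ℝ) < ((p.getD I.n 0 : ℤ) : ℝ) := by
      rw [hlast]
      exact dens_posR _
    exact_mod_cast this
  have hpos : pos I.n p = toReal I.v₀ := by
    ext j
    simp only [pos, toReal]
    rw [hlast, hp, clr_real, getD_ofFn_append]
    have := (dens_posR (List.ofFn I.v₀ ++ [1])).ne'
    field_simp
  have hv : Vtx (aR (rowsH (dat I)) I.n) (bR (rowsH (dat I)) I.n) []
      (List.range (rowsH (dat I)).length) (pos I.n p) := by
    refine vtx_of_mem_extremePoints ?_
    have := I.vertex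
    rw [← PP_eq, ← hpos] at this
    exact this
  obtain ⟨v, h1, h2, h3⟩ := canon_spec hyp (wf I) hok (fun x hx => by
    have := hv.2 (x - pos I.n p) (by simp) (fun i hi ht => by
      rw [dotProduct_sub, hx i (List.mem_range.1 hi) ht, ht, sub_self])
    exact sub_eq_zero.1 this)
  have h4 : start (dat I) = v := by
    have : start (dat I) = (canon (rowsH (dat I)) (objG (dat I)) p).getD [] := rfl
    rw [this, h1]
    rfl
  rw [h4]
  exact ⟨h2, by rw [h3, hpos]⟩

/-! ## The run -/

/-- the rational coordinates of a point -/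
def qv (n : ℕ) (p : List ℤ) : Fin n → ℚ := fun j => (p.getD j 0 : ℚ) / (p.getD n 0 : ℚ)

theorem toQ_eq (n : ℕ) (p : List ℤ) : toQ n p = List.ofFn (qv n p) := by
  unfold toQ qv
  refine List.ext_getElem (by simp) fun i h1 h2 => ?_
  simp

theorem toReal_qv (n : ℕ) (p : List ℤ) : toReal (qv n p) = pos n p := by
  ext j
  simp only [toReal, qv, pos]
  push_cast
  rfl

/-- the path after `K` steps of the machine -/
def pathOf (K : ℕ) : List (Fin I.n → ℚ) :=
  (((D.step (fns (rowsH (dat I)) (objG (dat I))) (D.indF (rowsH (dat I)) (objG (dat I))))^[K]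
    (D.initS (dat I)).2).1.reverse).map (qv I.n)

theorem out_eq (K : ℕ) : outS (D.stepS^[K] (D.initS (dat I))) = (pathOf I K).map List.ofFn := by
  rw [D.stepS_iter]
  unfold outS pathOf
  have : (objG (dat I)).length - 1 = I.n := by
    rw [(wf I).g_len]
    rfl
  simp only [this, List.map_map]
  congr 1
  funext p
  exact toQ_eq _ _

theorem toReal_injective {n : ℕ} : Function.Injective (toReal : (Fin n → ℚ) → Fin n → ℝ) := by
  intro u v h
  ext j
  have := congrFun h j
  simp only [toReal] at this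
  exact_mod_cast this

theorem path_spec (K : ℕ) (hK : 5 * (2 * min I.n (I.m + 1)) ^
      (Nat.log 2 (min (I.m + I.n) (2 * I.m + 1)) + 1) + 1 ≤ K) :
    IsRun I (pathOf I K) ∧ (pathOf I K).length ≤
      (2 * min I.n (I.m + 1)) ^ (Nat.log 2 (min (I.m + I.n) (2 * I.m + 1)) + 1) + 1 := by
  obtain ⟨s1, s2⟩ := start_spec I
  have hsub : I.m + I.n - I.n = I.m := by omega
  have hex : pos I.n (start (dat I)) ∈
      (PP (aR (rowsH (dat I)) I.n) (bR (rowsH (dat I)) I.n)
        (rowsH (dat I)).length).extremePoints ℝ := by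
    rw [PP_eq, s2]
    exact I.vertex
  obtain ⟨p, ps, h1, h2, h3, h4, h5, h6⟩ := D.run_spec hyp (wf I) s1 hex K (by
    rw [length_rowsH, hsub]
    exact hK)
  have hpath : pathOf I K = ((p :: ps).reverse).map (qv I.n) := by
    unfold pathOf
    have : (D.initS (dat I)).2 =
        ([start (dat I)], [D.item0 (rowsH (dat I)) (objG (dat I)) (start (dat I))]) := rfl
    rw [this, h1]
  rw [PP_eq] at h5
  rw [length_rowsH, hsub] at h2
  refine ⟨⟨?_, ?_, ?_, ?_⟩, ?_⟩
  · rw [hpath, List.head?_map, List.head?_reverse, h4]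
    simp only [Option.map_some, Option.some.injEq]
    apply toReal_injective
    rw [toReal_qv, s2]
  · intro v hv
    rw [hpath] at hv
    obtain ⟨q, hq, rfl⟩ := List.mem_map.1 hv
    rw [toReal_qv]
    exact h5 q (List.mem_reverse.1 hq)
  · rw [hpath, List.isChain_map, List.isChain_reverse]
    refine h3.imp fun q r hqr => ?_
    obtain ⟨-, -, a3, a4⟩ := hqr
    rw [toReal_qv, toReal_qv]
    rw [PP_eq] at a4
    exact ⟨(cR_lt I _ _).1 a3, a4⟩
  · refine ⟨qv I.n p, ?_, ?_⟩
    · rw [hpath, List.getLast?_map, List.getLast?_reverse]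
      rfl
    · rw [toReal_qv]
      rcases h6 with h6 | ⟨d, h7, h8⟩
      · left
        intro x hx
        rw [← PP_eq] at hx
        exact (cR_le I _ _).1 (h6 x hx)
      · right
        rw [PP_eq] at h8
        exact ⟨d, (cR_pos I d).1 h7, h8⟩
  · rw [hpath]
    simpa using h2

/-! ## The number of steps -/

/-- the base of the number of steps -/
def base (x : QData) : ℕ := 10 * min x.2.1.length (x.1.2.length + 1) + 1

/-- the exponent of the number of steps -/
def expo (x : QData) : ℕ :=
  (min (x.1.2.length + x.2.1.length) (2 * x.1.2.length + 1)).size + 1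

theorem upoly_size {α : Type} [TEnc α] {n : α → ℕ} (hn : UPoly n) : UPoly fun a => (n a).size := by
  have h : UPoly (fun a : α => ((n a).bits).length) := UPoly.length (NPC.Poly.natBits hn.toPoly)
  have e : (fun a : α => (n a).size) = fun a : α => ((n a).bits).length := by
    funext a
    exact (Nat.size_eq_bits_len _).symm
  rw [e]
  exact h

theorem upoly_min {α : Type} [TEnc α] {m n : α → ℕ} (hm : UPoly m) (hn : UPoly n) :
    UPoly fun a => min (m a) (n a) :=
  UPoly.of_le (NPC.Poly.min hm.toPoly hn.toPoly) hn fun _ => min_le_right _ _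

theorem upoly_m : UPoly (fun x : QData => x.1.2.length) :=
  UPoly.length (NPC.Poly.snd (NPC.Poly.fst NPC.Poly.id))

theorem upoly_n : UPoly (fun x : QData => x.2.1.length) :=
  UPoly.length (NPC.Poly.fst (NPC.Poly.snd NPC.Poly.id))

theorem upoly_base : UPoly base :=
  UPoly.add (UPoly.mul (UPoly.const 10) (upoly_min upoly_n (UPoly.add upoly_m (UPoly.const 1))))
    (UPoly.const 1)

theorem upoly_expo : UPoly expo :=
  UPoly.add (upoly_size (upoly_min (UPoly.add upoly_m upoly_n)
    (UPoly.add (UPoly.mul (UPoly.const 2) upoly_m) (UPoly.const 1)))) (UPoly.const 1)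

theorem log_le_size (k : ℕ) : Nat.log 2 k ≤ k.size := by
  rcases Nat.eq_zero_or_pos k with rfl | hk
  · simp
  · rw [Pool.Agent.W85.QIter.size_log hk]
    omega

theorem size_le_log (k : ℕ) : k.size ≤ Nat.log 2 k + 1 := by
  rcases Nat.eq_zero_or_pos k with rfl | hk
  · simp
  · rw [Pool.Agent.W85.QIter.size_log hk]

theorem steps_le : 5 * (2 * min I.n (I.m + 1)) ^
      (Nat.log 2 (min (I.m + I.n) (2 * I.m + 1)) + 1) + 1 ≤
    base (dat I) ^ expo (dat I) := by
  have hb : base (dat I) = 10 * min I.n (I.m + 1) + 1 := by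
    unfold base dat
    simp
  have he : expo (dat I) = (min (I.m + I.n) (2 * I.m + 1)).size + 1 := by
    unfold expo dat
    simp
  rw [hb, he]
  set k := min I.n (I.m + 1)
  set l := min (I.m + I.n) (2 * I.m + 1)
  have h1 : (10 * k + 1) ^ (Nat.log 2 l + 1) ≤ (10 * k + 1) ^ (l.size + 1) :=
    Nat.pow_le_pow_right (by omega) (by have := log_le_size l; omega)
  refine le_trans ?_ h1
  set r := Nat.log 2 l
  have h2 : 5 * (2 * k) ^ (r + 1) ≤ (10 * k) ^ (r + 1) := by
    have : 10 * k = 5 * (2 * k) := by ring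
    rw [this, mul_pow 5]
    refine Nat.mul_le_mul_right _ ?_
    calc 5 = 5 ^ 1 := by norm_num
      _ ≤ 5 ^ (r + 1) := Nat.pow_le_pow_right (by norm_num) (by omega)
  have h3 : (10 * k) ^ (r + 1) + 1 ≤ (10 * k + 1) ^ (r + 1) := by
    have : (10 * k) ^ (r + 1) < (10 * k + 1) ^ (r + 1) :=
      Nat.pow_lt_pow_left (by omega) (by omega)
    omega
  omega

theorem steps_ge : (base (dat I) + 1) ^ expo (dat I) ≤
    ((min I.n (I.m + 1) + 2) ^ (Nat.log 2 (I.m + 1) + 1)) ^ 15 := by
  have hb : base (dat I) = 10 * min I.n (I.m + 1) + 1 := by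
    unfold base dat
    simp
  have he : expo (dat I) = (min (I.m + I.n) (2 * I.m + 1)).size + 1 := by
    unfold expo dat
    simp
  rw [hb, he]
  set k := min I.n (I.m + 1)
  have h1 : (min (I.m + I.n) (2 * I.m + 1)).size + 1 ≤ 3 * (Nat.log 2 (I.m + 1) + 1) := by
    have a1 : (min (I.m + I.n) (2 * I.m + 1)).size ≤ ((I.m + 1) * 2).size :=
      Nat.size_le_size (by omega)
    have a2 := size_le_log ((I.m + 1) * 2)
    rw [Nat.log_mul_base (by norm_num) (by omega)] at a2
    omega
  have h2 : 10 * k + 1 + 1 ≤ (k + 2) ^ 5 := by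
    have a1 : 2 ^ 4 ≤ (k + 2) ^ 4 := Nat.pow_le_pow_left (by omega) 4
    have a2 : 16 * (k + 2) ≤ (k + 2) ^ 4 * (k + 2) := Nat.mul_le_mul_right _ (by omega)
    have a3 : (k + 2) ^ 4 * (k + 2) = (k + 2) ^ 5 := (pow_succ _ 4).symm
    omega
  calc (10 * k + 1 + 1) ^ ((min (I.m + I.n) (2 * I.m + 1)).size + 1) ≤
        ((k + 2) ^ 5) ^ ((min (I.m + I.n) (2 * I.m + 1)).size + 1) := Nat.pow_le_pow_left h2 _
    _ ≤ ((k + 2) ^ 5) ^ (3 * (Nat.log 2 (I.m + 1) + 1)) :=
        Nat.pow_le_pow_right (by positivity) h1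
    _ = ((k + 2) ^ (Nat.log 2 (I.m + 1) + 1)) ^ 15 := by
        rw [← pow_mul, ← pow_mul]
        congr 1
        ring

/-- the bound for the time in terms of the input length -/
theorem time_le {L C k m : ℕ} (hk : k < L) (hm : m < L) :
    C * (L * (k + 2) ^ (Nat.log 2 (m + 1) + 1)) ^ C ≤
      2 ^ ((4 * C) * (Nat.log 2 L + 1) ^ 2) := by
  set s := Nat.log 2 L + 1 with hs
  have hL : L < 2 ^ s := Nat.lt_pow_succ_log_self (by norm_num) L
  have h1 : k + 2 ≤ 2 ^ (s + 1) := by
    rw [pow_succ]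
    omega
  have h2 : Nat.log 2 (m + 1) + 1 ≤ s := by
    have := Nat.log_mono_right (b := 2) (show m + 1 ≤ L by omega)
    omega
  have hs1 : 1 ≤ s := by omega
  have h3 : L * (k + 2) ^ (Nat.log 2 (m + 1) + 1) ≤ 2 ^ (3 * s ^ 2) := by
    calc L * (k + 2) ^ (Nat.log 2 (m + 1) + 1) ≤ 2 ^ s * (2 ^ (s + 1)) ^ s :=
          Nat.mul_le_mul hL.le ((Nat.pow_le_pow_left h1 _).trans
            (Nat.pow_le_pow_right (by positivity) h2))
      _ = 2 ^ (s + (s + 1) * s) := by rw [← pow_mul, ← pow_add]
      _ ≤ 2 ^ (3 * s ^ 2) := Nat.pow_le_pow_right (by norm_num) (by nlinarith)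
  calc C * (L * (k + 2) ^ (Nat.log 2 (m + 1) + 1)) ^ C ≤ 2 ^ C * (2 ^ (3 * s ^ 2)) ^ C :=
        Nat.mul_le_mul Nat.lt_two_pow_self.le (Nat.pow_le_pow_left h3 _)
    _ = 2 ^ (C + 3 * s ^ 2 * C) := by rw [← pow_mul, ← pow_add]
    _ ≤ 2 ^ ((4 * C) * s ^ 2) := by
        refine Nat.pow_le_pow_right (by norm_num) ?_
        have : C * 1 ≤ C * s ^ 2 := Nat.mul_le_mul_left _ (Nat.one_le_pow _ _ hs1)
        nlinarith

/-- **There is a version of the simplex method which runs in quasi-polynomial time.** There is a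
map `path` which assigns a run of the simplex method to each rational linear program
`max c x, A x ≤ b, x ≥ 0` with a given vertex, such that one deterministic multi-stack Turing
machine `h` computes `path`,
* in time `2 ^ (C (log L + 1)²)` on inputs of length `L`, all steps included, and
* in time polynomial in `L (min (n, m + 1) + 2) ^ (log₂ (m + 1) + 1)` on the linear programs with
  `m` rows and `n` variables;
and the number of vertices on the path is at most
`(2 min (n, m + 1)) ^ (log₂ (min (m + n, 2 m + 1)) + 1) + 1`, whatever the size of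
the numbers. -/
theorem result : ∃ (path : (I : LP) → List (Fin I.n → ℚ)) (C : ℕ)
    (h : Turing.TM2ComputableInTime LP.encode (bits : List (List ℚ) → List Bool)
      (fun I => (path I).map List.ofFn)),
    (∀ L, h.time L ≤ 2 ^ (C * (Nat.log 2 L + 1) ^ 2)) ∧
    (∀ I : LP, ∃ t, t ≤ C * (I.encode.length *
        (min I.n (I.m + 1) + 2) ^ (Nat.log 2 (I.m + 1) + 1)) ^ C ∧
      Nonempty (Turing.TM2OutputsInTime h.tm (I.encode.map h.inputAlphabet.invFun)
        (some ((bits ((path I).map List.ofFn)).map h.outputAlphabet.invFun)) t)) ∧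
    ∀ I : LP, IsRun I (path I) ∧ (path I).length ≤
      (2 * min I.n (I.m + 1)) ^ (Nat.log 2 (min (I.m + I.n) (2 * I.m + 1)) + 1) + 1 := by
  classical
  have hcan : CanonStmt := fun α _ H g p hH hg hp => Pool.Agent.W368.poly_canonT polyKs hH hg hp
  obtain ⟨q, hq⟩ := D.size_states hcan Pool.Agent.W160.Spx.poly_rowsH
    Pool.Agent.W160.Spx.poly_objG
  obtain ⟨K, hK, M, C, hM⟩ := Pool.Agent.W261.PIter.param_iterate (ι := LP) dat
    (D.poly_initS polyKs) (D.poly_stepS polyKs) Pool.Agent.W368.poly_outS q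
    (fun I k => hq (dat I) k) upoly_base upoly_expo
  set C' := 15 * C + 1 with hC'
  have hmn : ∀ I : LP, I.m + I.n < sz (dat I) := by
    intro I
    unfold dat
    rw [sz_pair, sz_pair, sz_pair]
    have h1 := length_lt_sz (List.ofFn I.b)
    have h2 := length_lt_sz (List.ofFn I.c)
    rw [List.length_ofFn] at h1 h2
    omega
  have hT : ∀ I : LP, ∃ t, t ≤ C' * (sz (dat I) *
        (min I.n (I.m + 1) + 2) ^ (Nat.log 2 (I.m + 1) + 1)) ^ C' ∧
      Nonempty (Turing.TM2OutputsInTime M.tm (List.map M.inputAlphabet.invFun (bits (dat I)))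
        (some (List.map M.outputAlphabet.invFun
          (bits ((pathOf I (K I)).map List.ofFn)))) t) := by
    intro I
    obtain ⟨t, ht, h1⟩ := hM I
    refine ⟨t, ht.trans ?_, ?_⟩
    · have hs : 0 < sz (dat I) := sz_pos _
      set W := (min I.n (I.m + 1) + 2) ^ (Nat.log 2 (I.m + 1) + 1) with hW
      have hW1 : 0 < W := by positivity
      have h2 : sz (dat I) * (base (dat I) + 1) ^ expo (dat I) ≤ (sz (dat I) * W) ^ 15 := by
        rw [mul_pow]
        refine Nat.mul_le_mul ?_ (steps_ge I)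
        exact Nat.le_self_pow (by norm_num) _
      calc C * (sz (dat I) * (base (dat I) + 1) ^ expo (dat I)) ^ C ≤
            C' * ((sz (dat I) * W) ^ 15) ^ C :=
            Nat.mul_le_mul (by omega) (Nat.pow_le_pow_left h2 _)
        _ = C' * (sz (dat I) * W) ^ (15 * C) := by rw [← pow_mul]
        _ ≤ C' * (sz (dat I) * W) ^ C' := by
            refine Nat.mul_le_mul_left _ (Nat.pow_le_pow_right (by positivity) (by omega))
    · rw [out_eq] at h1
      exact h1
  refine ⟨fun I => pathOf I (K I), 4 * C', ?_⟩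
  have hTT : ∀ I : LP, Nonempty (Turing.TM2OutputsInTime M.tm
      (List.map M.inputAlphabet.invFun (bits (dat I)))
      (some (List.map M.outputAlphabet.invFun (bits ((pathOf I (K I)).map List.ofFn))))
      (2 ^ ((4 * C') * (Nat.log 2 (bits (dat I)).length + 1) ^ 2))) := by
    intro I
    obtain ⟨t, ht, ⟨h1⟩⟩ := hT I
    have h2 : t ≤ 2 ^ ((4 * C') * (Nat.log 2 (bits (dat I)).length + 1) ^ 2) := by
      refine ht.trans (time_le ?_ ?_)
      · have := hmn I
        have h3 : min I.n (I.m + 1) ≤ I.n := min_le_left _ _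
        change min I.n (I.m + 1) < sz (dat I)
        omega
      · have := hmn I
        change I.m < sz (dat I)
        omega
    exact ⟨⟨h1.toEvalsTo, h1.steps_le_m.trans h2⟩⟩
  refine ⟨{ M with
      time := fun L => 2 ^ ((4 * C') * (Nat.log 2 L + 1) ^ 2)
      outputsFun := fun I => Classical.choice (hTT I) }, fun L => le_rfl, fun I => ?_, fun I => ?_⟩
  · obtain ⟨t, ht, h1⟩ := hT I
    refine ⟨t, ht.trans ?_, h1⟩
    have h3 : 0 < sz (dat I) * (min I.n (I.m + 1) + 2) ^ (Nat.log 2 (I.m + 1) + 1) := by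
      have := sz_pos (dat I)
      positivity
    change C' * (sz (dat I) * (min I.n (I.m + 1) + 2) ^ (Nat.log 2 (I.m + 1) + 1)) ^ C' ≤
      4 * C' * (sz (dat I) * (min I.n (I.m + 1) + 2) ^ (Nat.log 2 (I.m + 1) + 1)) ^ (4 * C')
    exact Nat.mul_le_mul (by omega) (Nat.pow_le_pow_right h3 (by omega))
  · exact path_spec I (K I) ((steps_le I).trans (hK I))

end Pool.Agent.Results.MP_4d246d_lc.SimplexVersion
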