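import Pool.Agent.W482.MR.Robin
set_option autoImplicit false

namespace Pool.Agent.Results.MP_4d246d_lc.SwitchingRules

open Finset Pool.Agent.H454R3 Pool.Agent.W482.MR

/-- **Switching between few memoryless pivot rules is exponential, even where Random-Edge is
quadratic, and logarithmic memory is the threshold.**

1. Let `r q`, `q ∈ Q`, be at most `m` maps choosing an element of each nonempty set of directions
of the `n`-cube, and let `c` be any controller: before each step it sees all vertices of the path
so far (also the current one) and the sets of improving directions of all earlier ones, and it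
picks a `q ∈ Q`; the rule then flips the direction which `r q` chooses from the set of improving
directions. For every start vertex `x₀` there is an injective objective function `f` such that
every face has a direction all of whose edges are oriented in the same way (in particular there is
one local maximum on every face, an increasing path of at most `n` steps from each vertex to the
maximum, and the expected number of steps of the rule that chooses a random improving direction
is at most `n(n+1)/2` from every vertex), while the path of the rule `(r, c)` from `x₀` to the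
maximum has `L` steps with `L + 1 ≥ 2 ^ ⌊n / (8 m² ⌈log₂ n⌉)⌋`.

2. On the other hand there is a rule with `n` maps `r q`, where moreover the controller is a memory
with the `n` states `q` (so of `⌈log₂ n⌉` bits), which needs at most `n²` steps on all objective
functions of this kind, from all vertices and all initial states. -/
theorem result :
    (∀ (n m : ℕ), 2 ≤ n → 1 ≤ m → ∀ (Q : Type) [Fintype Q], Fintype.card Q ≤ m →
      ∀ r : Q → Finset (Fin n) → Fin n, (∀ q, ∀ S : Finset (Fin n), S.Nonempty → r q S ∈ S) →
      ∀ (c : List ((Fin n → Bool) × Finset (Fin n)) → (Fin n → Bool) → Q) (x₀ : Fin n → Bool),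
      ∃ f : (Fin n → Bool) → ℕ,
        Function.Injective f ∧
        Combed f ∧
        (∀ (U : Finset (Fin n)) (x : Fin n → Bool), ∃! y : Fin n → Bool,
          (∀ i, i ∉ U → y i = x i) ∧ ∀ i ∈ U, f (flip y i) < f y) ∧
        (∀ x : Fin n → Bool, ∃ (l : ℕ) (w : ℕ → (Fin n → Bool)), l ≤ n ∧ w 0 = x ∧
          (∀ k < l, ∃ i ∈ improving f (w k), w (k + 1) = flip (w k) i) ∧
          improving f (w l) = ∅) ∧
        (∃ T : (Fin n → Bool) → ℝ, RandomEdge f T ∧ ∀ x, T x ≤ (n : ℝ) * (n + 1) / 2) ∧
        ∃ (L : ℕ) (v : ℕ → Fin n → Bool), IsRun r c f x₀ L v ∧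
          2 ^ (n / (8 * m ^ 2 * Nat.clog 2 n)) ≤ L + 1) ∧
    (∀ n : ℕ, 1 ≤ n → ∃ (r : Fin n → Finset (Fin n) → Fin n) (nx : Fin n → Finset (Fin n) → Fin n),
      (∀ q, ∀ S : Finset (Fin n), S.Nonempty → r q S ∈ S) ∧
      ∀ f : (Fin n → Bool) → ℕ, Combed f → ∀ (x₀ : Fin n → Bool) (q₀ : Fin n),
        ∃ (L : ℕ) (v : ℕ → Fin n → Bool), IsRun r (memory nx q₀) f x₀ L v ∧ L ≤ n ^ 2) := by
  constructor
  · intro n m hn hm Q _ hQ r hr c x₀
    obtain ⟨f, hinj, hcomb, L, v, h1, h2⟩ := exists_slow hn hm hQ r hr c x₀
    obtain ⟨g1, g2, g3⟩ := hcomb.all hinj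
    exact ⟨f, hinj, hcomb, g1, g2, g3, L, v, h1, h2⟩
  · intro n _
    refine ⟨robin, robin, fun q S h => (robin_spec q S h).1, fun f hf x₀ q₀ => ?_⟩
    obtain ⟨L, v, hL, hv⟩ := robin_fast f hf univ x₀ (fun y _ => subset_univ _) q₀ x₀
      (fun _ _ => rfl)
    rw [card_univ, Fintype.card_fin] at hL
    exact ⟨L, v, hv, by rw [pow_two]; exact hL⟩

end Pool.Agent.Results.MP_4d246d_lc.SwitchingRules
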